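import Pool.Agent.Lib.MP_688fd0_co.ASY.TB.Iface
import Pool.Agent.Lib.MP_688fd0_co.LIN.H15.Opt

/-!
# Module RUNSB (helper5)

All cycles that meet the inside of a ladder are replaced by one cycle.
-/

set_option autoImplicit false

namespace Pool.Agent.Lib.MP_688fd0_co.ASY.H5

open Classical
open Pool.Agent.Lib.MP_688fd0_co.LP (IsP Conn Cyc Symm cay)
open Pool.Agent.Lib.MP_688fd0_co.LIN
open Pool.Agent.Lib.MP_688fd0_co.LIN.H15 (mem_cov mem_cyc self_mem_cyc cyc_eq cyc_eq_iff reach_of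
  cov_of_reach addC addC_cf addC_cov addC_ncyc)
open Pool.Agent.Lib.MP_688fd0_co.ASY.H85 (Ladder Mid JoinStatement)

universe u

section

variable {V : Type u} [Fintype V]

/-- `H` without the components that meet `I`. -/
def delM (H : SimpleGraph V) (I : V → Prop) : SimpleGraph V where
  Adj a b := H.Adj a b ∧ ¬ ∃ u, H.Reachable a u ∧ I u
  symm := ⟨fun _ _ h => ⟨h.1.symm, fun ⟨u, h1, h2⟩ => h.2 ⟨u, h.1.reachable.trans h1, h2⟩⟩⟩
  loopless := ⟨fun a h => H.loopless.irrefl a h.1⟩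

theorem delM_cf {G H : SimpleGraph V} (h : CF G H) (I : V → Prop) : CF G (delM H I) where
  le a b hab := h.le hab.1
  deg a := by
    by_cases ha : ∃ u, H.Reachable a u ∧ I u
    · left
      unfold dg
      rw [Finset.card_eq_zero, Finset.filter_eq_empty_iff]
      exact fun b _ hb => hb.2 ha
    · have : dg (delM H I) a = dg H a := by
        unfold dg
        congr 1
        ext b
        simp only [Finset.mem_filter, Finset.mem_univ, true_and]
        exact ⟨fun h => h.1, fun h => ⟨h, ha⟩⟩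
      rw [this]
      exact h.deg a

theorem mem_delM_cov {H : SimpleGraph V} {I : V → Prop} {w : V} :
    w ∈ cov (delM H I) ↔ w ∈ cov H ∧ ¬ ∃ u, H.Reachable w u ∧ I u := by
  rw [mem_cov, mem_cov]
  constructor
  · rintro ⟨x, hx⟩
    exact ⟨⟨x, hx.1⟩, hx.2⟩
  · rintro ⟨⟨x, hx⟩, hn⟩
    exact ⟨x, hx, hn⟩

theorem delM_ncyc {H : SimpleGraph V} {I : V → Prop} :
    ncyc (delM H I) + (((cov H).filter (fun v => I v)).image (cyc H)).card ≤ ncyc H := by
  have h1 : cycs (delM H I) ⊆ cycs H \ (((cov H).filter (fun v => I v)).image (cyc H)) := by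
    intro S hS
    obtain ⟨w, hw, rfl⟩ := Finset.mem_image.1 hS
    rw [mem_delM_cov] at hw
    have h2 : cyc (delM H I) w = cyc H w := by
      ext x
      rw [mem_cyc, mem_cyc]
      constructor
      · intro h
        exact (reach_of (H1 := delM H I) (H2 := H) (X := fun _ => True)
          (fun _ _ _ hxy => ⟨hxy.1, trivial⟩) trivial h).1
      · intro h
        exact (reach_of (H1 := H) (H2 := delM H I) (X := fun x => ¬ ∃ u, H.Reachable x u ∧ I u)
          (fun _ _ hx hxy => ⟨⟨hxy, hx⟩, fun ⟨u, h1, h2⟩ => hx ⟨u, hxy.reachable.trans h1, h2⟩⟩)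
          hw.2 h).1
    rw [h2, Finset.mem_sdiff]
    refine ⟨Finset.mem_image_of_mem _ hw.1, fun h3 => ?_⟩
    obtain ⟨v, hv, hvw⟩ := Finset.mem_image.1 h3
    rw [Finset.mem_filter] at hv
    exact hw.2 ⟨v, (cyc_eq_iff.1 hvw).symm, hv.2⟩
  have h3 : (((cov H).filter (fun v => I v)).image (cyc H)) ⊆ cycs H :=
    Finset.image_subset_image (Finset.filter_subset _ _)
  have h4 := Finset.card_le_card h1
  rw [Finset.card_sdiff_of_subset h3] at h4
  have h5 := Finset.card_le_card h3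
  unfold ncyc
  omega

theorem cov_of_ne {H : SimpleGraph V} {v u : V} (h : H.Reachable v u) (hne : v ≠ u) : v ∈ cov H := by
  obtain ⟨p⟩ := h
  cases p with
  | nil => exact absurd rfl hne
  | cons hadj p => exact mem_cov.2 ⟨_, hadj⟩

theorem mid_notin {G : SimpleGraph V} {c M : ℕ} {S R W : ℕ → Finset V} {T : ℕ → V → List V}
    (L : Ladder G c M S R W T) {v : V} (h : Mid S R 0 M v) : v ∉ S M := by
  rcases h with ⟨k, _, hk, hv⟩ | ⟨k, _, hk, hv⟩
  · exact fun h => (Finset.disjoint_left.1 (L.disSR M le_rfl k hk)) h hv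
  · exact fun h => (Finset.disjoint_left.1 (L.disS k hk.le M le_rfl hk.ne)) hv h

end

/-- RUNSB -/
theorem runsb (h1 : RunsaStatement.{u}) (h2 : JoinStatement.{u}) : RunsbStatement.{u} := by
  intro V _ G H c M S R W T hL hM hcl hCF hoff hmeet
  obtain ⟨F, hF, hPD, hcov⟩ := h1 V G H (Mid S R 0 M) hCF
    (fun v hv hmv => by
      obtain ⟨u, hu, hu2, _⟩ := hoff v hv hmv
      exact ⟨u, hu, hu2⟩)
  -- a vertex off the ladder on a cycle meeting the inside lies on a run
  have key : ∀ u ∈ cov H, ¬ Mid S R 0 M u → u ∉ S 0 → u ∉ S M → (∃ x, H.Reachable u x ∧ Mid S R 0 M x) →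
      ∃ P ∈ F, u ∈ P := by
    intro u hu hu1 hu2 hu3 hux
    obtain ⟨w, hw⟩ := mem_cov.1 hu
    refine hcov u hu1 ⟨w, hw, fun hmw => ?_⟩ hux
    rcases hcl w hmw u (hCF.le hw.symm) with h | h | h
    · exact hu1 h
    · exact hu2 h
    · exact hu3 h
  obtain ⟨v0, hv0, hmv0⟩ := hmeet
  obtain ⟨u0, hu0, hu01, hu02, hu03⟩ := hoff v0 hv0 hmv0
  have hu0c : u0 ∈ cov H := cov_of_reach hv0 hu0
  obtain ⟨P0, hP0, hu0P⟩ := key u0 hu0c hu01 hu02 hu03 ⟨v0, hu0.symm, hmv0⟩
  obtain ⟨cy, hcy, hcy1, hcy2, hcy3⟩ := h2 V G c M S R W T hL hM F ⟨P0, hP0⟩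
    (fun P hP => by
      obtain ⟨hch, hnd, hlen, hnI, hend, _⟩ := hF P hP
      refine ⟨⟨?_, hch.imp (fun a b hab => hCF.le hab), hnd⟩, hlen, hnI, ?_⟩
      · rintro rfl
        simp at hlen
      · intro v hv
        obtain ⟨u, hu, hmu⟩ := hend v hv
        have hvP : v ∈ P := by
          rcases hv with h | h
          · exact List.mem_of_head? h
          · exact List.mem_of_getLast? h
        exact (hcl u hmu v (hCF.le hu.symm)).resolve_left (hnI v hvP))
    hPD
  -- every vertex of a run is covered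
  have hrun : ∀ P ∈ F, ∀ v ∈ P, v ∈ cov H ∧ ∃ u, H.Reachable v u ∧ Mid S R 0 M u := by
    intro P hP v hv
    obtain ⟨_, _, _, hnI, _, hre⟩ := hF P hP
    obtain ⟨u, hu, hmu⟩ := hre v hv
    refine ⟨cov_of_ne hu ?_, u, hu, hmu⟩
    rintro rfl
    exact hnI v hv hmu
  have hd : ∀ v ∈ cy, v ∉ cov (delM H (Mid S R 0 M)) := by
    intro v hv hc
    rw [mem_delM_cov] at hc
    rcases hcy2 v hv with h | ⟨P, hP, hvP⟩
    · exact hc.2 ⟨v, SimpleGraph.Reachable.refl _, h⟩
    · exact hc.2 (hrun P hP v hvP).2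
  have hcf' := addC_cf (delM_cf hCF (Mid S R 0 M)) hcy hd
  have hn1 := addC_ncyc (H := delM H (Mid S R 0 M)) hcy.1.2.2 hcy.2.1 hd
  have hn2 := delM_ncyc (H := H) (I := Mid S R 0 M)
  have hmem : ∀ v, v ∈ cov (addC (delM H (Mid S R 0 M)) cy hcy.1.2.2 hcy.2.1) ↔
      v ∈ cov (delM H (Mid S R 0 M)) ∨ v ∈ cy := by
    intro v
    rw [addC_cov, Finset.mem_union, List.mem_toFinset]
  refine ⟨addC (delM H (Mid S R 0 M)) cy hcy.1.2.2 hcy.2.1, cy, hcf', hcy,
    fun v hv => (hmem v).2 (Or.inr hv), ?_, ?_, ⟨u0, hcy1 P0 hP0 u0 hu0P, hu01⟩, ?_⟩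
  · intro v hv hv1 hv2 hv3
    rw [hmem]
    by_cases hx : ∃ x, H.Reachable v x ∧ Mid S R 0 M x
    · obtain ⟨P, hP, hvP⟩ := key v hv hv1 hv2 hv3 hx
      exact Or.inr (hcy1 P hP v hvP)
    · exact Or.inl (mem_delM_cov.2 ⟨hv, hx⟩)
  · omega
  · intro hSM
    refine ⟨hcy3 ?_, ?_⟩
    · intro P hP v hv
      obtain ⟨_, _, _, hnI, hend, _⟩ := hF P hP
      obtain ⟨u, hu, hmu⟩ := hend v hv
      have hvP : v ∈ P := by
        rcases hv with h | h
        · exact List.mem_of_head? h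
        · exact List.mem_of_getLast? h
      rcases hcl u hmu v (hCF.le hu.symm) with h | h | h
      · exact absurd h (hnI v hvP)
      · exact h
      · exact absurd h (hSM v (mem_cov.2 ⟨u, hu⟩))
    · intro v hv
      rcases hcy2 v hv with h | ⟨P, hP, hvP⟩
      · exact mid_notin hL h
      · exact hSM v (hrun P hP v hvP).1

end Pool.Agent.Lib.MP_688fd0_co.ASY.H5
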